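import Pool.Agent.H629.TA.Stm

/-!
Poisson expectations of Lipschitz functions (statement `S_PO` of the project TA).
-/

open Finset

namespace Pool.Agent.H216.TA.PO

open Pool.Agent.H629.TA

/-- the Poisson weights -/
noncomputable def w (l : ℝ) (n : ℕ) : ℝ := Real.exp (-l) * l ^ n / (n.factorial : ℝ)

theorem w_nonneg {l : ℝ} (hl : 0 ≤ l) (n : ℕ) : 0 ≤ w l n := by
  unfold w; positivity

theorem w_hasSum (l : ℝ) : HasSum (w l) 1 := by
  have h := (NormedSpace.expSeries_div_hasSum_exp (𝔸 := ℝ) l).mul_left (Real.exp (-l))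
  rw [← Real.exp_eq_exp_ℝ, ← Real.exp_add, neg_add_cancel, Real.exp_zero] at h
  have e : w l = fun i => Real.exp (-l) * (l ^ i / (i.factorial : ℝ)) := by
    funext i
    unfold w
    rw [mul_div_assoc]
  rw [e]
  exact h

theorem w_succ (l : ℝ) (n : ℕ) : ((n : ℝ) + 1) * w l (n + 1) = l * w l n := by
  unfold w
  have h1 : ((n.factorial : ℕ) : ℝ) ≠ 0 := by positivity
  have h2 : ((n : ℝ) + 1) ≠ 0 := by positivity
  rw [Nat.factorial_succ, pow_succ]
  push_cast
  field_simp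

theorem w1_hasSum (l : ℝ) : HasSum (fun n : ℕ => (n : ℝ) * w l n) l := by
  have h : HasSum (fun n : ℕ => ((n + 1 : ℕ) : ℝ) * w l (n + 1)) l := by
    have h0 := (w_hasSum l).mul_left l
    rw [mul_one] at h0
    have e : (fun n : ℕ => ((n + 1 : ℕ) : ℝ) * w l (n + 1)) = fun n => l * w l n := by
      funext n
      push_cast
      exact w_succ l n
    rw [e]
    exact h0
  have h2 := (hasSum_nat_add_iff (f := fun n : ℕ => (n : ℝ) * w l n) 1 (g := l)).1 h
  simpa using h2

theorem w2_hasSum (l : ℝ) : HasSum (fun n : ℕ => (n : ℝ) * ((n : ℝ) - 1) * w l n) (l ^ 2) := by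
  have h : HasSum (fun n : ℕ => ((n + 1 : ℕ) : ℝ) * (((n + 1 : ℕ) : ℝ) - 1) * w l (n + 1))
      (l ^ 2) := by
    have h0 := (w1_hasSum l).mul_left l
    rw [← pow_two] at h0
    have e : (fun n : ℕ => ((n + 1 : ℕ) : ℝ) * (((n + 1 : ℕ) : ℝ) - 1) * w l (n + 1)) =
        fun n : ℕ => l * ((n : ℝ) * w l n) := by
      funext n
      push_cast
      have := w_succ l n
      calc ((n : ℝ) + 1) * ((n : ℝ) + 1 - 1) * w l (n + 1)
          = n * (((n : ℝ) + 1) * w l (n + 1)) := by ring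
        _ = n * (l * w l n) := by rw [this]
        _ = l * (n * w l n) := by ring
    rw [e]
    exact h0
  have h2 := (hasSum_nat_add_iff (f := fun n : ℕ => (n : ℝ) * ((n : ℝ) - 1) * w l n) 1
    (g := l ^ 2)).1 h
  simpa using h2

theorem lip_bound {g : ℝ → ℝ} (hg : Lip g) (x : ℝ) : |g x| ≤ |g 0| + |x| := by
  have h := hg x 0
  rw [sub_zero] at h
  calc |g x| = |(g x - g 0) + g 0| := by ring_nf
    _ ≤ |g x - g 0| + |g 0| := abs_add_le _ _
    _ ≤ |x| + |g 0| := by linarith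
    _ = |g 0| + |x| := by ring

theorem Po_eq (l : ℝ) (g : ℝ → ℝ) : Po l g = ∑' n : ℕ, w l n * g n := rfl

theorem summable_w {l : ℝ} (hl : 0 ≤ l) {g : ℝ → ℝ} (hg : Lip g) :
    Summable (fun n : ℕ => w l n * g n) := by
  have h1 : Summable (fun n : ℕ => |g 0| * w l n + (n : ℝ) * w l n) :=
    ((w_hasSum l).summable.mul_left _).add (w1_hasSum l).summable
  refine Summable.of_norm_bounded h1 ?_
  intro n
  have hb := lip_bound hg (n : ℝ)
  rw [abs_of_nonneg (Nat.cast_nonneg n : (0 : ℝ) ≤ (n : ℝ))] at hb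
  have hw := w_nonneg hl n
  rw [Real.norm_eq_abs, abs_mul, abs_of_nonneg hw]
  nlinarith

theorem lip_shift {g : ℝ → ℝ} (hg : Lip g) (a : ℝ) : Lip (fun b => g (a + b)) := by
  intro x y
  have h := hg (a + x) (a + y)
  have e : a + x - (a + y) = x - y := by ring
  rw [e] at h
  exact h

theorem lip_Po {g : ℝ → ℝ} (hg : Lip g) {l : ℝ} (hl : 0 ≤ l) :
    Lip (fun a => Po l (fun b => g (a + b))) := by
  intro x y
  show |Po l (fun b => g (x + b)) - Po l (fun b => g (y + b))| ≤ |x - y|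
  rw [Po_eq, Po_eq, ← (summable_w hl (lip_shift hg x)).tsum_sub (summable_w hl (lip_shift hg y))]
  have hs : Summable (fun n : ℕ => w l n * g (x + n) - w l n * g (y + n)) :=
    (summable_w hl (lip_shift hg x)).sub (summable_w hl (lip_shift hg y))
  have hb : ∀ n : ℕ, ‖w l n * g (x + n) - w l n * g (y + n)‖ ≤ |x - y| * w l n := by
    intro n
    have h := hg (x + n) (y + n)
    have e : x + (n : ℝ) - (y + n) = x - y := by ring
    rw [e] at h
    have hw := w_nonneg hl n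
    rw [← mul_sub, Real.norm_eq_abs, abs_mul, abs_of_nonneg hw]
    nlinarith
  have h2 := tsum_of_norm_bounded ((w_hasSum l).mul_left |x - y|) hb
  rw [mul_one, Real.norm_eq_abs] at h2
  exact h2

theorem w_add (l m : ℝ) (n : ℕ) :
    w (l + m) n = ∑ p ∈ antidiagonal n, w l p.1 * w m p.2 := by
  unfold w
  rw [(Commute.all l m).add_pow' n, neg_add, Real.exp_add, Finset.mul_sum, Finset.sum_div]
  refine Finset.sum_congr rfl ?_
  intro p hp
  rw [HasAntidiagonal.mem_antidiagonal] at hp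
  have hc := Nat.add_choose_mul_factorial_mul_factorial p.2 p.1
  rw [add_comm p.2 p.1, hp] at hc
  have hc' : ((n.choose p.1 : ℕ) : ℝ) * (p.2.factorial : ℝ) * (p.1.factorial : ℝ) =
      (n.factorial : ℝ) := by
    exact_mod_cast hc
  rw [nsmul_eq_mul, ← hc']
  have h1 : ((p.1.factorial : ℕ) : ℝ) ≠ 0 := by positivity
  have h2 : ((p.2.factorial : ℕ) : ℝ) ≠ 0 := by positivity
  have h3 : ((n.choose p.1 : ℕ) : ℝ) ≠ 0 := by
    intro h
    rw [h] at hc'
    have : ((n.factorial : ℕ) : ℝ) ≠ 0 := by positivity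
    apply this
    rw [← hc']
    ring
  field_simp

theorem summable_prod {g : ℝ → ℝ} (hg : Lip g) {l m : ℝ} (hl : 0 ≤ l) (hm : 0 ≤ m) :
    Summable (fun p : ℕ × ℕ => w l p.1 * w m p.2 * g ((p.1 : ℝ) + p.2)) := by
  have hwl := (w_hasSum l).summable
  have hwm := (w_hasSum m).summable
  have hl1 := (w1_hasSum l).summable
  have hm1 := (w1_hasSum m).summable
  have n0 : ∀ n : ℕ, (0 : ℝ) ≤ n := fun n => Nat.cast_nonneg n
  have a := (hwl.mul_of_nonneg hwm (w_nonneg hl) (w_nonneg hm)).mul_left |g 0|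
  have b := hl1.mul_of_nonneg hwm (fun n => mul_nonneg (n0 n) (w_nonneg hl n)) (w_nonneg hm)
  have c := hwl.mul_of_nonneg hm1 (w_nonneg hl) (fun n => mul_nonneg (n0 n) (w_nonneg hm n))
  refine Summable.of_norm_bounded ((a.add b).add c) ?_
  rintro ⟨i, j⟩
  have hb := lip_bound hg ((i : ℝ) + j)
  rw [abs_of_nonneg (add_nonneg (n0 i) (n0 j))] at hb
  have h0 : 0 ≤ w l i * w m j := mul_nonneg (w_nonneg hl i) (w_nonneg hm j)
  show ‖w l i * w m j * g ((i : ℝ) + j)‖ ≤
    |g 0| * (w l i * w m j) + (i * w l i) * w m j + w l i * (j * w m j)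
  rw [Real.norm_eq_abs, abs_mul, abs_of_nonneg h0]
  calc w l i * w m j * |g ((i : ℝ) + j)| ≤ w l i * w m j * (|g 0| + (i + j)) := by
        gcongr
    _ = |g 0| * (w l i * w m j) + (i * w l i) * w m j + w l i * (j * w m j) := by ring

theorem Po_add {g : ℝ → ℝ} (hg : Lip g) {l m : ℝ} (hl : 0 ≤ l) (hm : 0 ≤ m) :
    Po (l + m) g = Po l (fun a => Po m (fun b => g (a + b))) := by
  have hs := summable_prod hg hl hm
  have h1 : Po l (fun a => Po m (fun b => g (a + b))) =
      ∑' p : ℕ × ℕ, w l p.1 * w m p.2 * g ((p.1 : ℝ) + p.2) := by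
    rw [hs.tsum_prod, Po_eq]
    refine tsum_congr ?_
    intro i
    show w l i * Po m (fun b => g ((i : ℝ) + b)) = _
    rw [Po_eq, ← tsum_mul_left]
    refine tsum_congr ?_
    intro j
    show w l i * (w m j * g ((i : ℝ) + j)) = w l i * w m j * g ((i : ℝ) + j)
    ring
  have hs2 := HasAntidiagonal.sigmaAntidiagonalEquivProd.summable_iff.2 hs
  have h2 : ∑' p : ℕ × ℕ, w l p.1 * w m p.2 * g ((p.1 : ℝ) + p.2) =
      ∑' n : ℕ, ∑' p : antidiagonal n,
        w l (p : ℕ × ℕ).1 * w m (p : ℕ × ℕ).2 *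
          g (((p : ℕ × ℕ).1 : ℝ) + ((p : ℕ × ℕ).2 : ℝ)) := by
    rw [← HasAntidiagonal.sigmaAntidiagonalEquivProd.tsum_eq
      (fun p : ℕ × ℕ => w l p.1 * w m p.2 * g ((p.1 : ℝ) + p.2))]
    exact Summable.tsum_sigma' (fun n => (hasSum_fintype _).summable) hs2
  rw [h1, h2, Po_eq]
  refine tsum_congr ?_
  intro n
  have h3 : ∑' p : antidiagonal n, w l (p : ℕ × ℕ).1 * w m (p : ℕ × ℕ).2 *
        g (((p : ℕ × ℕ).1 : ℝ) + ((p : ℕ × ℕ).2 : ℝ)) =
      ∑ p ∈ antidiagonal n, w l p.1 * w m p.2 * g ((p.1 : ℝ) + (p.2 : ℝ)) := by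
    rw [tsum_fintype]
    exact Finset.sum_coe_sort (antidiagonal n)
      (fun p : ℕ × ℕ => w l p.1 * w m p.2 * g ((p.1 : ℝ) + (p.2 : ℝ)))
  rw [h3, w_add, Finset.sum_mul]
  refine Finset.sum_congr rfl ?_
  intro p hp
  rw [HasAntidiagonal.mem_antidiagonal] at hp
  rw [← hp]
  push_cast
  rfl

theorem t_PO : S_PO := by
  intro g hg
  refine ⟨?_, fun l hl => lip_Po hg hl, fun l m hl hm => Po_add hg hl hm, ?_⟩
  · rw [Po_eq, tsum_eq_single 0]
    · simp [w]
    · intro n hn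
      simp [w, hn]
  · intro l hl
    have h0 := (w_hasSum l).mul_right (g 0)
    have h1 := (w1_hasSum l).mul_right (g 1 - g 0)
    have hs := summable_w hl hg
    have h2 := (hs.hasSum.sub h0).sub h1
    have h3 : Po l g - g 0 - l * (g 1 - g 0) =
        ∑' n : ℕ, (w l n * g n - w l n * g 0 - (n : ℝ) * w l n * (g 1 - g 0)) := by
      rw [h2.tsum_eq, Po_eq]
      ring
    rw [h3]
    have hb : ∀ n : ℕ, ‖w l n * g n - w l n * g 0 - (n : ℝ) * w l n * (g 1 - g 0)‖ ≤
        2 * ((n : ℝ) * ((n : ℝ) - 1) * w l n) := by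
      intro n
      have hw := w_nonneg hl n
      have e : w l n * g n - w l n * g 0 - (n : ℝ) * w l n * (g 1 - g 0) =
        w l n * (g n - g 0 - n * (g 1 - g 0)) := by ring
      rw [e, Real.norm_eq_abs, abs_mul, abs_of_nonneg hw]
      rcases Nat.lt_or_ge n 2 with h | h
      · interval_cases n
        · simp
        · simp
      · have hn : (2 : ℝ) ≤ n := by exact_mod_cast h
        have ha := hg (n : ℝ) 0
        have hc := hg 1 0
        rw [sub_zero, abs_of_nonneg (by linarith : (0 : ℝ) ≤ n)] at ha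
        rw [sub_zero, abs_one] at hc
        have hd : |g n - g 0 - n * (g 1 - g 0)| ≤ 2 * n := by
          calc |g n - g 0 - n * (g 1 - g 0)| ≤ |g n - g 0| + |n * (g 1 - g 0)| := abs_sub _ _
            _ ≤ n + n * 1 := by
              rw [abs_mul, abs_of_nonneg (by linarith : (0 : ℝ) ≤ n)]
              gcongr
            _ = 2 * n := by ring
        have hf : 2 * (n : ℝ) ≤ 2 * (n * (n - 1)) := by nlinarith
        calc w l n * |g n - g 0 - n * (g 1 - g 0)| ≤ w l n * (2 * (n * (n - 1))) := by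
              gcongr
              linarith
          _ = 2 * ((n : ℝ) * ((n : ℝ) - 1) * w l n) := by ring
    have h4 := tsum_of_norm_bounded ((w2_hasSum l).mul_left 2) hb
    rw [Real.norm_eq_abs] at h4
    exact h4

end Pool.Agent.H216.TA.PO
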